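import Pool.Agent.Q72.SM.Stmt

/-!
# MP_0aacdf_an: Nevanlinna currents of lifted entire curves can charge the singular locus

Negative answer to Q1, with an explicit example: `X = ℙ¹ × ℙ¹`, `f(z) = (e^z, e^{(1+i)z})`, `k = 2`.

* `CMfd E`: compact complex manifolds modelled on `E`, given by a finite atlas;
  `Dir E`: with a holomorphic subbundle `V` of rank two of the tangent bundle, given by frames.
* `Proj X`: the projectivization `P(V)`, the set of all pairs `(x, ℓ)`, `ℓ` a line in `V_x`, with
  the charts given by the frames; its subbundle is the set of tangent vectors `v` at `(x, ℓ)` whose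
  image under the differential of the projection is in `ℓ` (`TangentLift`, conjuncts 2 and 3).
* `X0 = (ℙ¹ × ℙ¹, T)`, `X1 = Proj X0`, `X2 = Proj X1`: the Demailly–Semple tower;
  `D2 ⊂ X2`: the vertical directions, that is the singular locus of `X2`.
* `IsLift X g h`: `h` is the holomorphic lift of `g` to `Proj X`.
* `CForm X`: continuous real 2-forms; `IsHermitian ω`: `ω` is the fundamental form of a Hermitian
  metric; `IsNevanlinnaCurrent ω g S`: `S` is a Nevanlinna current of `g`;
  `IsTraceMeasure ω S σ`: `σ` is the trace measure `S ∧ ω`.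
-/

set_option autoImplicit false

namespace Pool.Agent.Results.MP_0aacdf_an.SingularMass

open Pool.Agent.Q72.SM

/-- **Nevanlinna currents of lifted entire curves can charge the singular locus.**  For the entire curve
`f(z) = (e^z, e^{(1+i)z})` in `ℙ¹ × ℙ¹` and its lift `f₂` to the second level `X₂` of the
Demailly–Semple tower, for every Hermitian metric `ω` on `X₂`: Nevanlinna currents `S` of `f₂` exist,
and the trace measure of every one of them gives the singular locus `D₂` of `X₂` positive measure. -/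
theorem result :
    (∀ x : X0.Pt, X0.V x = ⊤) ∧ (∀ X : Dir (ℂ × ℂ), TangentLift X) ∧
    (∀ X : Dir ((ℂ × ℂ) × ℂ), TangentLift X) ∧
    IsHolo X0.toCMfd f0 ∧ (∃ z w, f0 z ≠ f0 w) ∧
    ∃ (f1 : ℂ → X1.Pt) (f2 : ℂ → X2.Pt), IsLift X0 f0 f1 ∧ IsLift X1 f1 f2 ∧
      (∃ ω : CForm X2.toCMfd, IsHermitian ω) ∧ ∀ ω : CForm X2.toCMfd, IsHermitian ω →
        (∃ S, IsNevanlinnaCurrent ω f2 S) ∧ ∀ S, IsNevanlinnaCurrent ω f2 S →
          S ω = 1 ∧ (∃ σ, IsTraceMeasure ω S σ) ∧ ∀ σ, IsTraceMeasure ω S σ → 0 < σ D2 :=
  ⟨X0_V, fun X => tangentLift X, fun X => tangentLift X, holo0, nonconst0, main'⟩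

end Pool.Agent.Results.MP_0aacdf_an.SingularMass
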